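import Pool.Agent.Helper67.DO.DefsC

/-! # MP_d07457_gt, module C5: the limit of the block diffeomorphisms -/

set_option autoImplicit false

namespace Pool.Agent.Helper67.DO

open scoped BigOperators Real Topology
open MeasureTheory Filter

theorem c5_eps_eq (s0 : ℝ) (N : ℕ) : epsC s0 N = s0 / 2 ^ (N + 9) := by
  have h : (2 : ℝ) ^ (N + 9) = 2 ^ (N + 2) * 128 := by
    rw [show N + 9 = (N + 2) + 7 by ring, pow_add (2 : ℝ) (N + 2) 7]
    norm_num
  unfold epsC gamC
  rw [div_div, h]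

theorem c5_sC_ge (s0 : ℝ) (h0 : 0 < s0) (N : ℕ) : s0 / 2 < sC s0 N := by
  unfold sC
  have : 0 < s0 / 2 ^ (N + 1) := by positivity
  linarith

theorem c5_St_open (s : ℝ) : IsOpen (St s) := by
  have : Continuous fun z : ℂ => |z.im| := Complex.continuous_im.abs
  exact isOpen_lt this continuous_const

theorem c5_St_convex_mem {s t : ℝ} {z w : ℂ} (hz : z ∈ St s) (h : ‖w - z‖ ≤ t) (r : ℝ)
    (hr : s + t ≤ r) : w ∈ St r := by
  have h1 : |(w - z).im| ≤ t := (Complex.abs_im_le_norm _).trans h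
  have h2 : |z.im| < s := hz
  show |w.im| < r
  have h3 : w.im = z.im + (w - z).im := by simp
  rw [h3]
  calc |z.im + (w - z).im| ≤ |z.im| + |(w - z).im| := abs_add_le _ _
    _ < s + t := by linarith
    _ ≤ r := hr

theorem c5_phi_cont (s0 : ℝ) (N : ℕ) (j : ℤ) : Continuous (phiC s0 N j) := by
  unfold phiC
  refine continuous_const.mul ?_
  split_ifs
  · exact continuous_const
  · exact Complex.continuous_cos.comp (continuous_const.mul continuous_id)
  · exact Complex.continuous_sin.comp (continuous_const.mul continuous_id)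

theorem c5_b_cont (s0 : ℝ) (ns N : ℕ) :
    Continuous (fun x : (ℕ × ℤ → ℝ) × ℂ => bC s0 ns N x.1 x.2) := by
  unfold bC
  refine continuous_const.mul (continuous_finsetSum _ fun j _ => ?_)
  refine Continuous.mul ?_ ((c5_phi_cont s0 N j).comp continuous_snd)
  have h : Continuous fun x : (ℕ × ℤ → ℝ) × ℂ => x.1 (N, j) :=
    (continuous_apply (N, j)).comp continuous_fst
  exact Complex.continuous_ofReal.comp h

theorem c5_eta_cont (s0 : ℝ) (ns N : ℕ) :
    Continuous (fun x : (ℕ × ℤ → ℝ) × ℂ => etaN s0 ns x.1 N x.2) := by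
  induction N with
  | zero => exact continuous_snd
  | succ N ih =>
    have h2 : Continuous (fun x : (ℕ × ℤ → ℝ) × ℂ => (x.1, etaN s0 ns x.1 N x.2)) :=
      continuous_fst.prodMk ih
    have h3 : Continuous (fun x : (ℕ × ℤ → ℝ) × ℂ => bC s0 ns N x.1 (etaN s0 ns x.1 N x.2)) := by
      have h4 := c5_b_cont s0 ns N
      generalize bC s0 ns N = f at h4 ⊢
      exact h4.comp h2
    simp only [etaN, CC]
    exact ih.add h3

theorem c5_eta_sum (s0 : ℝ) (ns : ℕ) (th : ℕ × ℤ → ℝ) (z : ℂ) (N : ℕ) :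
    etaN s0 ns th N z = z + ∑ M ∈ Finset.range N, bC s0 ns M th (etaN s0 ns th M z) := by
  induction N with
  | zero => simp [etaN]
  | succ N ih =>
    rw [Finset.sum_range_succ, ← add_assoc, ← ih]
    rfl

theorem c5_hasSum (s0 : ℝ) (N : ℕ) :
    HasSum (fun k : ℕ => s0 / 2 ^ (k + N + 9)) (s0 / 2 ^ (N + 8)) := by
  have h := hasSum_geometric_two' (s0 / 2 ^ (N + 8))
  have e : (fun k : ℕ => s0 / 2 ^ (k + N + 9)) = fun k : ℕ => s0 / 2 ^ (N + 8) / 2 / 2 ^ k := by
    funext k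
    rw [div_div, div_div]
    congr 1
    rw [show k + N + 9 = (N + 8) + 1 + k by ring, pow_add (2 : ℝ) (N + 8 + 1) k,
      pow_succ (2 : ℝ) (N + 8), mul_assoc]
  rw [e]
  exact h

theorem c5_near (hC2 : ST_C2) (s0 : ℝ) (ns : ℕ) (h0 : 0 < s0) (h1 : s0 ≤ 1) (hns : 1 ≤ ns)
    (th : ℕ × ℤ → ℝ) (hth : th ∈ Cu) (z : ℂ) (hz : z ∈ St (s0 / 4)) (N : ℕ) :
    ‖etaN s0 ns th N z - z‖ ≤ s0 / 2 ^ 8 - s0 / 2 ^ (N + 8) ∧
      ‖bC s0 ns N th (etaN s0 ns th N z)‖ ≤ s0 / 2 ^ (N + 9) ∧ etaN s0 ns th N z ∈ St (s0 / 2) := by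
  induction N with
  | zero =>
    have hz2 : z ∈ St (s0 / 2) := by
      have h2 : |z.im| < s0 / 4 := hz
      show |z.im| < s0 / 2
      linarith
    have hz3 : z ∈ St (sC s0 0) := by
      have h2 : |z.im| < s0 / 2 := hz2
      have := c5_sC_ge s0 h0 0
      show |z.im| < sC s0 0
      linarith
    refine ⟨?_, ?_, hz2⟩
    · simp [etaN]
    · have h3 := ((hC2 s0 ns 0 h0 h1 hns th hth).2.2.2.1 z hz3).1
      rw [c5_eps_eq] at h3
      exact h3
  | succ N ih =>
    obtain ⟨i1, i2, i3⟩ := ih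
    have e : etaN s0 ns th (N + 1) z = etaN s0 ns th N z + bC s0 ns N th (etaN s0 ns th N z) := rfl
    have j1 : ‖etaN s0 ns th (N + 1) z - z‖ ≤ s0 / 2 ^ 8 - s0 / 2 ^ (N + 1 + 8) := by
      rw [e]
      have h2 : etaN s0 ns th N z + bC s0 ns N th (etaN s0 ns th N z) - z =
          (etaN s0 ns th N z - z) + bC s0 ns N th (etaN s0 ns th N z) := by ring
      rw [h2]
      refine (norm_add_le _ _).trans ?_
      have h3 : s0 / 2 ^ (N + 8) = s0 / 2 ^ (N + 9) + s0 / 2 ^ (N + 1 + 8) := by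
        rw [show N + 1 + 8 = N + 9 by ring, show N + 9 = (N + 8) + 1 by ring,
          pow_succ (2 : ℝ) (N + 8)]
        field_simp
        norm_num
      linarith
    have j3 : etaN s0 ns th (N + 1) z ∈ St (s0 / 2) := by
      refine c5_St_convex_mem hz (t := s0 / 2 ^ 8) ?_ _ ?_
      · have : 0 < s0 / 2 ^ (N + 1 + 8) := by positivity
        linarith
      · norm_num
        linarith
    refine ⟨j1, ?_, j3⟩
    have hz3 : etaN s0 ns th (N + 1) z ∈ St (sC s0 (N + 1)) := by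
      have h2 : |(etaN s0 ns th (N + 1) z).im| < s0 / 2 := j3
      have := c5_sC_ge s0 h0 (N + 1)
      show |(etaN s0 ns th (N + 1) z).im| < sC s0 (N + 1)
      linarith
    have h3 := ((hC2 s0 ns (N + 1) h0 h1 hns th hth).2.2.2.1 _ hz3).1
    rw [c5_eps_eq] at h3
    exact h3

theorem c5_diff (hC2 : ST_C2) (s0 : ℝ) (ns : ℕ) (h0 : 0 < s0) (h1 : s0 ≤ 1) (hns : 1 ≤ ns)
    (th : ℕ × ℤ → ℝ) (hth : th ∈ Cu) (N : ℕ) : Differentiable ℂ (etaN s0 ns th N) := by
  induction N with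
  | zero =>
    have : etaN s0 ns th 0 = fun z => z := rfl
    rw [this]
    exact differentiable_id
  | succ N ih =>
    have : etaN s0 ns th (N + 1) = fun z => etaN s0 ns th N z +
      bC s0 ns N th (etaN s0 ns th N z) := rfl
    rw [this]
    exact ih.add ((hC2 s0 ns N h0 h1 hns th hth).1.comp ih)

theorem c5_per (hC2 : ST_C2) (s0 : ℝ) (ns : ℕ) (h0 : 0 < s0) (h1 : s0 ≤ 1) (hns : 1 ≤ ns)
    (th : ℕ × ℤ → ℝ) (hth : th ∈ Cu) (N : ℕ) (z : ℂ) :
    etaN s0 ns th N (z + 1) = etaN s0 ns th N z + 1 := by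
  induction N with
  | zero => rfl
  | succ N ih =>
    have e : ∀ z, etaN s0 ns th (N + 1) z = etaN s0 ns th N z + bC s0 ns N th (etaN s0 ns th N z) :=
      fun _ => rfl
    rw [e, e, ih, (hC2 s0 ns N h0 h1 hns th hth).2.1]
    ring

theorem c5_real (hC2 : ST_C2) (s0 : ℝ) (ns : ℕ) (h0 : 0 < s0) (h1 : s0 ≤ 1) (hns : 1 ≤ ns)
    (th : ℕ × ℤ → ℝ) (hth : th ∈ Cu) (N : ℕ) (x : ℝ) : (etaN s0 ns th N x).im = 0 := by
  induction N with
  | zero => exact Complex.ofReal_im x
  | succ N ih =>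
    have e : etaN s0 ns th (N + 1) x = etaN s0 ns th N x + bC s0 ns N th (etaN s0 ns th N x) := rfl
    have h2 : etaN s0 ns th N x = (((etaN s0 ns th N x).re : ℝ) : ℂ) := by
      apply Complex.ext
      · simp
      · simp [ih]
    rw [e, Complex.add_im, ih, zero_add, h2]
    exact (hC2 s0 ns N h0 h1 hns th hth).2.2.1 _

theorem c5_deriv_b (hC2 : ST_C2) (s0 : ℝ) (ns : ℕ) (h0 : 0 < s0) (h1 : s0 ≤ 1) (hns : 1 ≤ ns)
    (th : ℕ × ℤ → ℝ) (hth : th ∈ Cu) (N : ℕ) (w : ℂ) (hw : w.im = 0) :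
    ‖deriv (bC s0 ns N th) w‖ ≤ 1 / 2 ^ (N + 7) := by
  have hd := (hC2 s0 ns N h0 h1 hns th hth).1
  have h2 := Complex.norm_deriv_le_of_forall_mem_sphere_norm_le (c := w) (R := s0 / 4)
    (C := s0 / 2 ^ (N + 9)) (by linarith) hd.diffContOnCl (by
      intro z hz
      have h3 : ‖z - w‖ = s0 / 4 := by
        rw [← dist_eq_norm]
        exact hz
      have hz3 : z ∈ St (sC s0 N) := by
        have h4 : |(z - w).im| ≤ s0 / 4 := h3 ▸ Complex.abs_im_le_norm (z - w)
        rw [Complex.sub_im, hw, sub_zero] at h4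
        have := c5_sC_ge s0 h0 N
        show |z.im| < sC s0 N
        linarith
      have h5 := ((hC2 s0 ns N h0 h1 hns th hth).2.2.2.1 z hz3).1
      rw [c5_eps_eq] at h5
      exact h5)
  refine h2.trans (le_of_eq ?_)
  have h3 : (2 : ℝ) ^ (N + 9) = 2 ^ (N + 7) * 4 := by
    rw [show N + 9 = (N + 7) + 2 by ring, pow_add (2 : ℝ) (N + 7) 2]
    norm_num
  rw [h3]
  field_simp

theorem c5_deriv_eta (hC2 : ST_C2) (s0 : ℝ) (ns : ℕ) (h0 : 0 < s0) (h1 : s0 ≤ 1) (hns : 1 ≤ ns)
    (th : ℕ × ℤ → ℝ) (hth : th ∈ Cu) (N : ℕ) (x : ℝ) :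
    ‖deriv (etaN s0 ns th N) x‖ ≤ 2 - 1 / 2 ^ N := by
  induction N with
  | zero =>
    have : etaN s0 ns th 0 = fun z => z := rfl
    rw [this]
    simp
    norm_num
  | succ N ih =>
    have e : etaN s0 ns th (N + 1) = fun z => etaN s0 ns th N z +
      bC s0 ns N th (etaN s0 ns th N z) := rfl
    have hN := (c5_diff hC2 s0 ns h0 h1 hns th hth N) x
    have hb := ((hC2 s0 ns N h0 h1 hns th hth).1) (etaN s0 ns th N x)
    have h2 : deriv (etaN s0 ns th (N + 1)) x = deriv (etaN s0 ns th N) x +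
        deriv (bC s0 ns N th) (etaN s0 ns th N x) * deriv (etaN s0 ns th N) x := by
      rw [e]
      exact (hN.hasDerivAt.add (hb.hasDerivAt.comp _ hN.hasDerivAt)).deriv
    have h3 := c5_deriv_b hC2 s0 ns h0 h1 hns th hth N _ (c5_real hC2 s0 ns h0 h1 hns th hth N x)
    rw [h2]
    refine (norm_add_le _ _).trans ?_
    rw [norm_mul]
    have h4 : ‖deriv (bC s0 ns N th) (etaN s0 ns th N x)‖ * ‖deriv (etaN s0 ns th N) x‖ ≤
        1 / 2 ^ (N + 7) * 2 := by
      refine mul_le_mul h3 (ih.trans ?_) (norm_nonneg _) (by positivity)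
      have : 0 < (1 : ℝ) / 2 ^ N := by positivity
      linarith
    have h5 : (1 : ℝ) / 2 ^ (N + 7) * 2 ≤ 1 / 2 ^ (N + 1) := by
      have h6 : (2 : ℝ) ^ (N + 7) = 2 ^ (N + 1) * 64 := by
        rw [show N + 7 = (N + 1) + 6 by ring, pow_add (2 : ℝ) (N + 1) 6]
        norm_num
      rw [h6]
      have h7 : (0 : ℝ) < 2 ^ (N + 1) := by positivity
      rw [div_mul_eq_mul_div, div_le_div_iff₀ (by positivity) h7]
      nlinarith
    have h8 : (1 : ℝ) / 2 ^ N = 2 * (1 / 2 ^ (N + 1)) := by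
      rw [pow_succ (2 : ℝ) N]
      field_simp
    linarith

theorem st_C5 (hC2 : ST_C2) : ST_C5 := by
  intro s0 ns h0 h1 hns
  set η : (ℕ × ℤ → ℝ) → ℂ → ℂ := fun th z => z + ∑' M : ℕ, bC s0 ns M th (etaN s0 ns th M z)
    with hη
  -- distance between the partial products and the limit
  have hdist : ∀ th ∈ Cu, ∀ z ∈ St (s0 / 4), ∀ N : ℕ,
      ‖etaN s0 ns th N z - η th z‖ ≤ s0 / 2 ^ (N + 8) := by
    intro th hth z hz N
    have hb : ∀ M, ‖bC s0 ns M th (etaN s0 ns th M z)‖ ≤ s0 / 2 ^ (M + 9) := fun M =>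
      (c5_near hC2 s0 ns h0 h1 hns th hth z hz M).2.1
    have hs : Summable (fun M : ℕ => bC s0 ns M th (etaN s0 ns th M z)) := by
      refine Summable.of_norm_bounded (c5_hasSum s0 0).summable fun M => ?_
      simpa using hb M
    have h2 : η th z - etaN s0 ns th N z =
        ∑' k : ℕ, bC s0 ns (k + N) th (etaN s0 ns th (k + N) z) := by
      rw [c5_eta_sum s0 ns th z N, hη]
      have := hs.sum_add_tsum_nat_add N
      simp only
      rw [← this]
      ring
    rw [← norm_neg, neg_sub, h2]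
    exact tsum_of_norm_bounded (c5_hasSum s0 N) fun k => hb (k + N)
  have hunif : TendstoUniformlyOn (fun (N : ℕ) (x : (ℕ × ℤ → ℝ) × ℂ) => etaN s0 ns x.1 N x.2)
      (fun x => η x.1 x.2) atTop (Cu ×ˢ St (s0 / 4)) := by
    rw [Metric.tendstoUniformlyOn_iff]
    intro ε hε
    have hlim : Tendsto (fun N : ℕ => s0 / 2 ^ (N + 8)) atTop (𝓝 0) := by
      have h2 : Tendsto (fun N : ℕ => (2 : ℝ) ^ (N + 8)) atTop atTop :=
        (tendsto_pow_atTop_atTop_of_one_lt (by norm_num)).comp (tendsto_add_atTop_nat 8)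
      exact h2.const_div_atTop s0
    filter_upwards [hlim.eventually (gt_mem_nhds hε)] with N hN x hx
    rw [dist_comm, dist_eq_norm]
    exact (hdist x.1 hx.1 x.2 hx.2 N).trans_lt hN
  have hunif' : ∀ th ∈ Cu, TendstoUniformlyOn (fun (N : ℕ) (z : ℂ) => etaN s0 ns th N z)
      (η th) atTop (St (s0 / 4)) := by
    intro th hth
    rw [Metric.tendstoUniformlyOn_iff] at hunif ⊢
    intro ε hε
    filter_upwards [hunif ε hε] with N hN z hz
    exact hN (th, z) ⟨hth, hz⟩
  refine ⟨η, ?_, ?_, ?_, ?_, ?_⟩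
  · intro th hth
    refine ⟨?_, ?_, ?_, ?_⟩
    · refine (hunif' th hth).tendstoLocallyUniformlyOn.differentiableOn
        (Eventually.of_forall fun N => ?_) (c5_St_open _)
      exact (c5_diff hC2 s0 ns h0 h1 hns th hth N).differentiableOn
    · intro z hz
      have hz1 : z + 1 ∈ St (s0 / 4) := by
        have h2 : |z.im| < s0 / 4 := hz
        show |(z + 1).im| < s0 / 4
        simpa using h2
      have l1 := (hunif' th hth).tendsto_at hz1
      have l2 := ((hunif' th hth).tendsto_at hz).add_const 1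
      refine tendsto_nhds_unique l1 (l2.congr fun N => ?_)
      exact (c5_per hC2 s0 ns h0 h1 hns th hth N z).symm
    · intro x
      have hx : (x : ℂ) ∈ St (s0 / 4) := by
        show |(x : ℂ).im| < s0 / 4
        simp
        linarith
      have l1 := (Complex.continuous_im.tendsto _).comp ((hunif' th hth).tendsto_at hx)
      have l2 : Tendsto (fun N : ℕ => (etaN s0 ns th N x).im) atTop (𝓝 0) := by
        have : (fun N : ℕ => (etaN s0 ns th N x).im) = fun _ => 0 := by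
          funext N
          exact c5_real hC2 s0 ns h0 h1 hns th hth N x
        rw [this]
        exact tendsto_const_nhds
      exact tendsto_nhds_unique l1 l2
    · intro z hz
      have h2 := hdist th hth z hz 0
      have h3 : etaN s0 ns th 0 z = z := rfl
      rw [h3, ← norm_neg, neg_sub] at h2
      refine h2.trans (le_of_eq ?_)
      norm_num
  · exact hunif.continuousOn (Eventually.of_forall fun N => (c5_eta_cont s0 ns N).continuousOn).frequently
  · intro th hth N z hz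
    exact ⟨hdist th hth z hz N, (c5_near hC2 s0 ns h0 h1 hns th hth z hz N).2.2⟩
  · intro th hth x
    have hx : (x : ℂ) ∈ St (s0 / 4) := by
      show |(x : ℂ).im| < s0 / 4
      simp
      linarith
    have h2 := (hunif' th hth).tendstoLocallyUniformlyOn.deriv
      (Eventually.of_forall fun N => (c5_diff hC2 s0 ns h0 h1 hns th hth N).differentiableOn)
      (c5_St_open _)
    exact h2.tendsto_at hx
  · intro th hth N x
    refine (c5_deriv_eta hC2 s0 ns h0 h1 hns th hth N x).trans ?_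
    have : 0 < (1 : ℝ) / 2 ^ N := by positivity
    linarith

end Pool.Agent.Helper67.DO
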