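import Pool.Agent.Helper67.DO.BaseE
import Pool.Agent.Helper26.DO.E8

set_option autoImplicit false

namespace Pool.Agent.Helper67.DO

open scoped BigOperators Real

noncomputable section

/-! ### linearity of `c3` -/

theorem x4c_eq (y : ℝ) (n : ℕ) (F : (Fin (n + 3) → ℂ) → ℂ) (v : Fin n → ℂ) :
    c3 y n F v = (1 / 2) * lib_pds (e8_l n) F (e8_c3 (y : ℂ) v) := by
  unfold c3 e8_l e8_c3
  simp only [lib_pds_cons, lib_pds_nil, lib_pd_succ_cons, lib_pd_zero_cons, lib_iter2]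

theorem x4c_pds_add {n : ℕ} (l : List (Fin n)) {F G : (Fin n → ℂ) → ℂ} {U : Set ℂ} (hU : IsOpen U)
    (hF : DifferentiableOn ℂ F (PU n U)) (hG : DifferentiableOn ℂ G (PU n U)) :
    ∀ z ∈ PU n U, lib_pds l (fun x => F x + G x) z = lib_pds l F z + lib_pds l G z := by
  induction l with
  | nil => exact fun z _ => rfl
  | cons i l ih =>
    intro z hz
    have hO := lib_isOpen_PU n hU
    have h1 : DifferentiableAt ℂ (lib_pds l F) z :=
      (lib_pds_hol l hU hF z hz).differentiableAt (hO.mem_nhds hz)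
    have h2 : DifferentiableAt ℂ (lib_pds l G) z :=
      (lib_pds_hol l hU hG z hz).differentiableAt (hO.mem_nhds hz)
    rw [lib_pds_cons, lib_pds_cons, lib_pds_cons, lib_pd_congr i hU ih hz,
      lib_pd_eq_fderiv (F := fun z => lib_pds l F z + lib_pds l G z) i (h1.add h2),
      lib_pd_eq_fderiv i h1, lib_pd_eq_fderiv i h2]
    have h3 : fderiv ℂ (fun z => lib_pds l F z + lib_pds l G z) z =
        fderiv ℂ (lib_pds l F) z + fderiv ℂ (lib_pds l G) z := fderiv_fun_add h1 h2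
    rw [h3]
    rfl

theorem x4c_pds_smul {n : ℕ} (l : List (Fin n)) (c : ℂ) (F : (Fin n → ℂ) → ℂ) :
    lib_pds l (fun x => c * F x) = fun x => c * lib_pds l F x := by
  induction l with
  | nil => rfl
  | cons i l ih =>
    funext z
    rw [lib_pds_cons, ih, lib_pds_cons, lib_pd_const_mul]

theorem x4c_add {y : ℝ} {n : ℕ} {U : Set ℂ} (hU : IsOpen U) (hy : (y : ℂ) ∈ U)
    {F G : (Fin (n + 3) → ℂ) → ℂ} (hF : DifferentiableOn ℂ F (PU (n + 3) U))
    (hG : DifferentiableOn ℂ G (PU (n + 3) U)) {v : Fin n → ℂ} (hv : v ∈ PU n U) :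
    c3 y n (fun x => F x + G x) v = c3 y n F v + c3 y n G v := by
  rw [x4c_eq, x4c_eq, x4c_eq, x4c_pds_add (e8_l n) hU hF hG _ (e8_c3_mem hy hv)]
  ring

theorem x4c_smul (y : ℝ) (n : ℕ) (c : ℂ) (F : (Fin (n + 3) → ℂ) → ℂ) (v : Fin n → ℂ) :
    c3 y n (fun x => c * F x) v = c * c3 y n F v := by
  rw [x4c_eq, x4c_eq, x4c_pds_smul]
  ring

/-! ### the geometry -/

/-- the data of `X2`, `X3` for the functionals `β ∘ c3` -/
theorem x4c_data (hX2 : ST_X2) (hX3 : ST_X3) {N : ℕ} {b m e : ℤ} {I : Set ℤ} {w h : ℝ} (hN : 0 < N)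
    (hbm : b < m) (hme : m < e) (heb : e ≤ b + N) (hI : ∀ i ∈ I, b < i ∧ i < m) (hw : 0 < w)
    (hw4 : w < 1 / (4 * N)) (hh : 0 < h) :
    IsOpen (US N (PI N b e ({m} ∪ I)) (GI N b e) w h) ∧
    ((yy N m : ℝ) : ℂ) ∈ US N (PI N b e ({m} ∪ I)) (GI N b e) w h ∧
    US N (PI N b m I) (GI N b m) w h ⊆ US N (PI N b e ({m} ∪ I)) (GI N b e) w h ∧
    (∀ n F, BO (n + 3) (US N (PI N b e ({m} ∪ I)) (GI N b e) w h) F →
      BO n (US N (PI N b m I) (GI N b m) w h) (c3 (yy N m) n F)) ∧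
    (∀ n, ∃ C : ℝ, ∀ F, BO (n + 3) (US N (PI N b e ({m} ∪ I)) (GI N b e) w h) F → ∀ B : ℝ,
      (∀ z ∈ PU (n + 3) (US N (PI N b e ({m} ∪ I)) (GI N b e) w h), ‖F z‖ ≤ B) →
      ∀ z ∈ PU n (US N (PI N b m I) (GI N b m) w h), ‖c3 (yy N m) n F z‖ ≤ C * B) ∧
    (∀ n F, BO (n + 4) (US N (PI N b e ({m} ∪ I)) (GI N b e) w h) F →
      ∀ z ∈ PU n (US N (PI N b m I) (GI N b m) w h),
        c3 (yy N m) n (dd (n + 3) F) z = - dd n (c3 (yy N m) (n + 1) F) z) := by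
  have hN' : (0 : ℝ) < N := Nat.cast_pos.2 hN
  obtain ⟨e1, e2, _, e4, e5⟩ := hX3 N b m e I w h hN hbm hme heb hI hw hw4 hh
  have hwN : w * N < 1 / 4 := by
    rw [lt_div_iff₀ (by positivity)] at hw4
    linarith
  have c1 : (m : ℝ) / N + w < yy N m := by
    unfold yy
    rw [← sub_pos]
    have : ((m : ℝ) + 1 / 2) / N - ((m : ℝ) / N + w) = (1 / 2 - w * N) / N := by
      field_simp
      ring
    rw [this]
    apply div_pos _ hN'
    linarith
  have hme' : (m : ℝ) + 1 ≤ e := by exact_mod_cast hme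
  have c2 : yy N m < (e : ℝ) / N - w := by
    unfold yy
    rw [← sub_pos]
    have : (e : ℝ) / N - w - ((m : ℝ) + 1 / 2) / N = (e - m - 1 / 2 - w * N) / N := by
      field_simp
      ring
    rw [this]
    apply div_pos _ hN'
    linarith
  have c3' : (e : ℝ) / N ≤ (m : ℝ) / N + 1 := by
    rw [div_add_one hN'.ne']
    apply div_le_div_of_nonneg_right _ hN'.le
    have : e ≤ m + N := by linarith
    exact_mod_cast this
  obtain ⟨_, _, _, _, _, _, _, _, _, x1, x2, x3⟩ := hX2 (m / N) (yy N m) (e / N) (e / N) w h c1 c2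
    le_rfl c3' hw.le hh (US N (PI N b m I) (GI N b m) w h) e4 e5 e2
  rw [← e1] at x1 x2 x3
  refine ⟨isOpen_US hN _ _ w h, ?_, ?_, x1, x2, x3⟩
  · rw [e1]
    right
    refine ⟨by simpa using hh, 0, ?_, ?_⟩
    · simpa using c1
    · simpa using c2
  · rw [e1]
    exact Set.subset_union_left

/-- `β ∘ c3` is a bounded functional -/
theorem x4c_comp (hX2 : ST_X2) (hX3 : ST_X3) {N : ℕ} {b m e : ℤ} {I : Set ℤ} {w h : ℝ} (hN : 0 < N)
    (hbm : b < m) (hme : m < e) (heb : e ≤ b + N) (hI : ∀ i ∈ I, b < i ∧ i < m) (hw : 0 < w)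
    (hw4 : w < 1 / (4 * N)) (hh : 0 < h) {n : ℕ} {β : ((Fin n → ℂ) → ℂ) → ℂ}
    (hβ : Fnl n (US N (PI N b m I) (GI N b m) w h) β) :
    Fnl (n + 3) (US N (PI N b e ({m} ∪ I)) (GI N b e) w h) (fun F => β (c3 (yy N m) n F)) := by
  obtain ⟨hO, hy, hsub, x1, x2, _⟩ := x4c_data hX2 hX3 hN hbm hme heb hI hw hw4 hh
  refine ⟨fun F G hF hG => ?_, fun c F hF => ?_, ?_⟩
  · rw [← hβ.add _ _ (x1 n F hF) (x1 n G hG)]
    exact hβ.ext' (x1 n _ (hF.add hG)) ((x1 n F hF).add (x1 n G hG)) fun z hz =>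
      x4c_add hO hy hF.hol hG.hol (PU_mono hsub hz)
  · rw [← hβ.smul c _ (x1 n F hF)]
    exact hβ.ext' (x1 n _ (hF.smul c)) ((x1 n F hF).smul c) fun z _ => x4c_smul _ n c F z
  · obtain ⟨C1, hC1, k1⟩ := hβ.bdd
    obtain ⟨C2, k2⟩ := x2 n
    refine ⟨C1 * |C2|, by positivity, fun F hF M hM hM0 => ?_⟩
    have h1 : ∀ z ∈ PU n (US N (PI N b m I) (GI N b m) w h), ‖c3 (yy N m) n F z‖ ≤ |C2| * M :=
      fun z hz => (k2 F hF M hM z hz).trans (mul_le_mul_of_nonneg_right (le_abs_self C2) hM0)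
    have h2 := k1 _ (x1 n F hF) (|C2| * M) h1 (by positivity)
    calc ‖β (c3 (yy N m) n F)‖ ≤ C1 * (|C2| * M) := h2
      _ = C1 * |C2| * M := by ring

theorem st_X4c (hE1 : ST_E1) (hX2 : ST_X2) (hX3 : ST_X3) : ST_X4c := by
  intro N k n b m e hN hb hkm hme heb
  have hk0 : (0 : ℤ) ≤ k := Int.natCast_nonneg k
  have hbm : b < m := by omega
  refine Loss.of fun w' h' w h a1 a2 a3 a4 a5 β3 hβ3 hex => ?_
  have hw0 : 0 < w := a1.trans a2
  have hw4' : w' < 1 / (4 * N) := a2.trans a3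
  have hh' : 0 < h' := a4.trans a5
  have hslit : ∀ i : ℕ, i < k → ∀ j ∈ ({(i : ℤ)} : Set ℤ), b < j ∧ j < m := by
    intro i hi j hj
    rw [Set.mem_singleton_iff] at hj
    subst hj
    constructor
    · omega
    · omega
  have hpi : ∀ i : ℕ, PI N b m ∅ ∪ pcl N {(i : ℤ)} = PI N b m {(i : ℤ)} := by
    intro i
    rw [PI_union, Set.empty_union]
  -- the functionals `β i ∘ c3`
  have hcomp : ∀ (q : ℕ) (i : ℕ), i < k → ∀ β : ((Fin q → ℂ) → ℂ) → ℂ,
      Fnl q (US N (PI N b m ∅ ∪ pcl N {(i : ℤ)}) (GI N b m) w h) β →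
      Fnl (q + 3) (US N (PI N b e {m} ∪ pcl N {(i : ℤ)}) (GI N b e) w' h')
        (fun F => β (c3 (yy N m) q F)) := by
    intro q i hi β hβ
    rw [PI_union]
    rw [hpi] at hβ
    exact x4c_comp hX2 hX3 hN hbm hme heb (hslit i hi) a1 hw4' hh'
      (hβ.mono' (US_mono le_rfl le_rfl a2.le a5.le))
  have hdat : ∀ w1 h1 : ℝ, 0 < w1 → w1 < w' → h' < h1 → _ := fun w1 h1 b1 b2 b3 =>
    x4c_data hX2 hX3 (I := ∅) (w := w1) (h := h1) hN hbm hme heb
      (fun i hi => absurd hi (Set.notMem_empty i)) b1 (b2.trans hw4') (hh'.trans b3)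
  cases n with
  | zero =>
    obtain ⟨β, k1, k2⟩ := hex
    refine ⟨fun _ => 0, Fnl.zeroF _ _, fun i F => β i (c3 (yy N m) 0 F), fun i hi =>
      hcomp 0 i hi (β i) (k1 i hi), fun w1 h1 b1 b2 b3 F hF => ?_⟩
    obtain ⟨_, _, _, x1, _, _⟩ := hdat w1 h1 b1 b2 b3
    rw [Set.union_empty] at x1
    have := k2 w1 h1 b1 (b2.trans a2) (a5.trans b3) (c3 (yy N m) 0 F) (x1 0 F hF)
    show β3 (c3 (yy N m) 0 F) - 0 = ∑ i ∈ Finset.range k, β i (c3 (yy N m) 0 F)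
    rw [sub_zero, this]
  | succ n =>
    obtain ⟨γ, hγ, β, k1, k2⟩ := hex
    have hΓ : Fnl (n + 3) (US N (PI N b e {m}) (GI N b e) w' h')
        (fun F => (-1) * γ (c3 (yy N m) n F)) := by
      have h1 := x4c_comp hX2 hX3 (I := ∅) hN hbm hme heb
        (fun i hi => absurd hi (Set.notMem_empty i)) a1 hw4' hh'
        (hγ.mono' (US_mono le_rfl le_rfl a2.le a5.le))
      rw [Set.union_empty] at h1
      exact h1.smulF (-1)
    refine ⟨fun F => (-1) * γ (c3 (yy N m) n F), hΓ, fun i F => β i (c3 (yy N m) (n + 1) F),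
      fun i hi => hcomp (n + 1) i hi (β i) (k1 i hi), fun w1 h1 b1 b2 b3 F hF => ?_⟩
    obtain ⟨_, _, _, x1, _, x3⟩ := hdat w1 h1 b1 b2 b3
    rw [Set.union_empty] at x1 x3
    have hB := x1 (n + 1) F hF
    have e1 := k2 w1 h1 b1 (b2.trans a2) (a5.trans b3) (c3 (yy N m) (n + 1) F) hB
    have hD : BO n (US N (PI N b m ∅) (GI N b m) w h)
        (fun z => (-1) * dd n (c3 (yy N m) (n + 1) F) z) :=
      (dd_BO hE1 hN (Shape_PI N b m ∅) b1.le (b2.trans a2) (a5.trans b3) hB).smul (-1)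
    have hsub : US N (PI N b m ∅) (GI N b m) w h ⊆ US N (PI N b m ∅) (GI N b m) w1 h1 :=
      US_mono le_rfl le_rfl (b2.trans a2).le (a5.trans b3).le
    have heq : ∀ z ∈ PU n (US N (PI N b m ∅) (GI N b m) w h),
        c3 (yy N m) n (dd (n + 3) F) z = (-1) * dd n (c3 (yy N m) (n + 1) F) z := by
      intro z hz
      rw [x3 n F hF z (PU_mono hsub hz)]
      ring
    have e2 : γ (c3 (yy N m) n (dd (n + 3) F)) = (-1) * γ (dd n (c3 (yy N m) (n + 1) F)) := by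
      rw [← hγ.smul (-1) _ (dd_BO hE1 hN (Shape_PI N b m ∅) b1.le (b2.trans a2) (a5.trans b3) hB)]
      exact hγ.ext' (hD.congr heq fun z hz => ((Shape_PI N b m ∅).per_US hN w h z).1 hz) hD heq
    show β3 (c3 (yy N m) (n + 1) F) - (-1) * γ (c3 (yy N m) n (dd (n + 3) F)) =
      ∑ i ∈ Finset.range k, β i (c3 (yy N m) (n + 1) F)
    rw [e2, ← e1]
    ring

end

end Pool.Agent.Helper67.DO
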